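import Pool.Agent.K1H19.Kom.Stm
import Pool.Agent.H167R2.FKMinimax

/-! From prefixes to random signings: sorting, summation by parts, minimax. -/

set_option autoImplicit false

namespace K19Kom

open Finset

/-- summation by parts -/
theorem parts (K : ℝ) : ∀ (d : ℕ) (q f : Fin d → ℝ), Antitone q → (∀ i, 0 ≤ q i) →
    (∀ m : ℕ, m ≤ d → ∑ i ∈ Finset.univ.filter (fun i : Fin d => i.val < m), f i ≤ K * m) →
    ∑ i, q i * f i ≤ K * ∑ i, q i := by
  intro d
  induction d with
  | zero =>
    intro q f _ _ _
    simp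
  | succ d ih =>
    intro q f hq h0 hf
    set c := q (Fin.last d) with hc
    have hc0 : 0 ≤ c := h0 _
    have hle : ∀ i, c ≤ q i := fun i => hq (Fin.le_last i)
    have h1 := ih (fun i => q i.castSucc - c) (fun i => f i.castSucc) (by
      intro i j hij
      have := hq (Fin.castSucc_le_castSucc_iff.2 hij)
      simp only
      linarith) (fun i => by linarith [hle i.castSucc]) (by
      intro m hm
      have h2 := hf m (by omega)
      rw [Finset.sum_filter, Fin.sum_univ_castSucc] at h2
      have h3 : ¬ ((Fin.last d).val < m) := by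
        rw [Fin.val_last]; omega
      rw [if_neg h3, add_zero] at h2
      rw [Finset.sum_filter]
      exact h2)
    have h4 : ∑ i, f i ≤ K * ((d + 1 : ℕ) : ℝ) := by
      have h5 := hf (d + 1) le_rfl
      rw [Finset.sum_filter] at h5
      have h6 : ∀ i ∈ (Finset.univ : Finset (Fin (d + 1))),
          (if i.val < d + 1 then f i else 0) = f i := fun i _ => if_pos i.2
      rwa [Finset.sum_congr rfl h6] at h5
    have e1 : ∑ i, q i * f i = ∑ i : Fin d, (q i.castSucc - c) * f i.castSucc + c * ∑ i, f i := by
      rw [Fin.sum_univ_castSucc (n := d) (f := fun i => q i * f i),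
        Fin.sum_univ_castSucc (n := d) (f := f), mul_add, Finset.mul_sum, ← add_assoc,
        ← Finset.sum_add_distrib]
      congr 1
      refine Finset.sum_congr rfl fun i _ => ?_
      ring
    have e2 : ∑ i, q i = ∑ i : Fin d, (q i.castSucc - c) + c * ((d + 1 : ℕ) : ℝ) := by
      rw [Fin.sum_univ_castSucc (n := d) (f := q), Finset.sum_sub_distrib, Finset.sum_const,
        Finset.card_univ, Fintype.card_fin, nsmul_eq_mul]
      push_cast
      ring
    rw [e1, e2]
    have h5 := mul_le_mul_of_nonneg_left h4 hc0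
    have e3 : K * (∑ i : Fin d, (q i.castSucc - c) + c * ((d + 1 : ℕ) : ℝ)) =
        K * ∑ i : Fin d, (q i.castSucc - c) + c * (K * ((d + 1 : ℕ) : ℝ)) := by ring
    rw [e3]
    exact add_le_add h1 h5

theorem t_MM : S_MM := by
  classical
  intro c K hc hK hP d n a x0 ha hx0
  set zs : (Fin n → Bool) → (Fin d → ℝ) := fun s i =>
    Psi c (∑ j, a i j * ((if s j then (1 : ℝ) else -1) - x0 j)) with hzs
  set Z : Finset (Fin d → ℝ) := Finset.univ.image zs with hZ
  have hmm : ∀ p : Fin d → ℝ, (∀ j, 0 ≤ p j) → ∃ z ∈ Z, ∑ j, p j * z j ≤ K * ∑ j, p j := by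
    intro p hp
    let σ : Equiv.Perm (Fin d) := Tuple.sort (fun j => -p j)
    have hσ : Antitone (p ∘ σ) := by
      have h7 : Monotone ((fun j => -p j) ∘ σ) := Tuple.monotone_sort _
      intro i j hij
      have := h7 hij
      simp only [Function.comp_apply] at this ⊢
      linarith
    obtain ⟨y, hy, hym⟩ := hP d n (fun i j => a (σ i) j) x0 (by
      intro j
      have := ha j
      rwa [← Equiv.sum_comp σ] at this) hx0
    have hys : ∀ j, (if (decide (y j = 1)) = true then (1 : ℝ) else -1) = y j := by
      intro j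
      rcases hy j with h | h
      · rw [h]; simp
      · rw [h]; norm_num
    refine ⟨zs fun j => decide (y j = 1), Finset.mem_image_of_mem _ (Finset.mem_univ _), ?_⟩
    have h1 := parts K d (p ∘ σ) (fun i => zs (fun j => decide (y j = 1)) (σ i)) hσ
      (fun i => hp _) (by
      intro m hm
      have h2 := hym m hm
      refine le_trans (le_of_eq ?_) h2
      refine Finset.sum_congr rfl fun i _ => ?_
      simp only [hzs]
      congr 1
      refine Finset.sum_congr rfl fun j _ => ?_
      rw [hys])
    have e1 : ∑ i, (p ∘ σ) i * zs (fun j => decide (y j = 1)) (σ i) =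
        ∑ i, p i * zs (fun j => decide (y j = 1)) i :=
      Equiv.sum_comp σ fun i => p i * zs (fun j => decide (y j = 1)) i
    have e2 : ∑ i, (p ∘ σ) i = ∑ i, p i := Equiv.sum_comp σ p
    rw [e1, e2] at h1
    exact h1
  obtain ⟨w, hw0, hw1, hw2⟩ := H167FK.minimax Z K hmm
  have hr : ∀ z : Fin d → ℝ, ∃ s : Fin n → Bool, z ∈ Z → zs s = z := by
    intro z
    by_cases hz : z ∈ Z
    · obtain ⟨s, -, h⟩ := Finset.mem_image.1 hz
      exact ⟨s, fun _ => h⟩
    · exact ⟨fun _ => true, fun h => absurd h hz⟩
  choose r hr using hr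
  set w' : (Fin n → Bool) → ℝ := fun s => if s = r (zs s) then w (zs s) else 0 with hw'
  have key : ∀ g : (Fin d → ℝ) → ℝ, ∑ s, w' s * g (zs s) = ∑ z ∈ Z, w z * g z := by
    intro g
    rw [← Finset.sum_fiberwise_of_maps_to (s := Finset.univ) (t := Z) (g := zs)
      (fun s _ => Finset.mem_image_of_mem _ (Finset.mem_univ _))]
    refine Finset.sum_congr rfl fun z hz => ?_
    rw [Finset.sum_eq_single_of_mem (r z)]
    · simp only [hw', hr z hz, if_true]
    · rw [Finset.mem_filter]
      exact ⟨Finset.mem_univ _, hr z hz⟩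
    · intro s hs hne
      rw [Finset.mem_filter] at hs
      have h1 : w' s = 0 := by
        simp only [hw', hs.2]
        exact if_neg hne
      rw [h1, zero_mul]
  refine ⟨w', ?_, ?_, ?_⟩
  · intro s
    simp only [hw']
    split_ifs
    · exact hw0 _ (Finset.mem_image_of_mem _ (Finset.mem_univ _))
    · exact le_rfl
  · have h1 := key fun _ => 1
    simp only [mul_one] at h1
    rw [h1]
    exact hw1
  · intro i
    have h1 := key fun z => z i
    have h2 := hw2 i
    rw [← h1] at h2
    exact h2

end K19Kom
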